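import Pool.Agent.MWGN.StmtsA

/-!
# Row DST of squad MWGN (MP_23468a_al): the names of a word with `WC`, `WT` are different
-/

namespace Pool.Agent.MWGN.H15

open Pool.Agent.MWGN
open Pool.Agent.MWK (pre Gw)

/-- row DST -/
theorem dst : DstStmt := by
  intro ν τ m nc hNs hT hm w hc ht
  -- counts
  have sa := hc.sa
  have sb := hc.sb
  have x2 := hc.x2
  have y2 := hc.y2
  have l2 : ∀ i ≤ m, 2 ≤ w.count (ν.L i) := fun i hi => hc.l2 i (by omega)
  have c2 : ∀ i < m, 2 ≤ w.count (ν.C i) := fun i hi => hc.c2 i (by omega)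
  have ss := ht.ss
  -- x and the other letters
  have hxy : ν.x ≠ ν.y := by
    intro h
    have h1 := hc.xl 0 (by omega)
    have h2 := hc.yl 0 (by omega)
    rw [h] at h1
    omega
  have hxL : ∀ i ≤ m, ν.L i ≠ ν.x := by
    intro i hi h
    have h1 := hc.l0 i (by omega)
    have h2 := hc.xa
    rw [h] at h1
    omega
  have hyL : ∀ i ≤ m, ν.L i ≠ ν.y := by
    intro i hi h
    have h1 := hc.l0 i (by omega)
    have h2 := hc.ya
    rw [h] at h1
    omega
  have hxC : ∀ i < m, ν.C i ≠ ν.x := by
    intro i hi h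
    have h1 := hc.c0 i (by omega)
    have h2 := hc.xa
    rw [h] at h1
    omega
  have hyC : ∀ i < m, ν.C i ≠ ν.y := by
    intro i hi h
    have h1 := hc.c0 i (by omega)
    have h2 := hc.ya
    rw [h] at h1
    omega
  have hxa : ν.x ≠ ν.a := by intro h; rw [h] at x2; omega
  have hxb : ν.x ≠ ν.b := by intro h; rw [h] at x2; omega
  have hya : ν.y ≠ ν.a := by intro h; rw [h] at y2; omega
  have hyb : ν.y ≠ ν.b := by intro h; rw [h] at y2; omega
  have hxS : ∀ i ≤ m, ν.S i ≠ ν.x := by
    intro i hi h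
    have h1 := ss i hi
    rw [h] at h1
    omega
  have hyS : ∀ i ≤ m, ν.S i ≠ ν.y := by
    intro i hi h
    have h1 := ss i hi
    rw [h] at h1
    omega
  have haL : ∀ i ≤ m, ν.L i ≠ ν.a := by
    intro i hi h
    have h1 := l2 i hi
    rw [h] at h1
    omega
  have hbL : ∀ i ≤ m, ν.L i ≠ ν.b := by
    intro i hi h
    have h1 := l2 i hi
    rw [h] at h1
    omega
  have haC : ∀ i < m, ν.C i ≠ ν.a := by
    intro i hi h
    have h1 := c2 i hi
    rw [h] at h1
    omega
  have hbC : ∀ i < m, ν.C i ≠ ν.b := by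
    intro i hi h
    have h1 := c2 i hi
    rw [h] at h1
    omega
  have hSL : ∀ i ≤ m, ∀ j ≤ m, ν.S i ≠ ν.L j := by
    intro i hi j hj h
    have h1 := ss i hi
    have h2 := l2 j hj
    rw [h] at h1
    omega
  have hSC : ∀ i ≤ m, ∀ j < m, ν.S i ≠ ν.C j := by
    intro i hi j hj h
    have h1 := ss i hi
    have h2 := c2 j hj
    rw [h] at h1
    omega
  have hLC : ∀ i ≤ m, ∀ j < m, ν.L i ≠ ν.C j := by
    intro i hi j hj h
    have h1 := hc.lb i (by omega)
    have h2 := c2 j hj
    have h3 := hc.cb j (by omega)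
    rw [h] at h1
    omega
  have hCC : ∀ i j, i < j → j < m → ν.C i ≠ ν.C j := by
    intro i j hij hj h
    have h1 := hc.cl1 i (by omega) j hij (by omega)
    have h2 := hc.cl0 j (by omega) j (le_refl j)
    have h3 := c2 i (by omega)
    rw [h] at h1 h3
    omega
  have hLL : ∀ i j, i < j → j ≤ m → ν.L i ≠ ν.L j := by
    intro i j hij hj h
    have h1 := hc.cl1 i (by omega) j hij (by omega)
    have h2 := hc.cl0 i (by omega) i (le_refl i)
    have h3 := c2 i (by omega)
    rw [h] at h2
    omega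
  -- the names of the simple letters
  have hN := hNs
  unfold Ns at hN
  rw [List.nodup_cons, List.nodup_cons] at hN
  obtain ⟨ha, hb, hS⟩ := hN
  have hab : ν.a ≠ ν.b := by
    intro h
    exact ha (by rw [h]; exact List.mem_cons_self)
  have haS : ∀ i ≤ m, ν.S i ≠ ν.a := by
    intro i hi h
    exact ha (List.mem_cons_of_mem _ (List.mem_map.2 ⟨i, List.mem_range.2 (by omega), h⟩))
  have hbS : ∀ i ≤ m, ν.S i ≠ ν.b := by
    intro i hi h
    exact hb (List.mem_map.2 ⟨i, List.mem_range.2 (by omega), h⟩)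
  -- the list of the lights and the list of the contents
  have hLn : ((List.range (m + 1)).map ν.L).Nodup := by
    refine (List.nodup_map_iff_inj_on List.nodup_range).2 ?_
    intro i hi j hj h
    rw [List.mem_range] at hi hj
    rcases lt_trichotomy i j with hlt | heq | hgt
    · exact absurd h (hLL i j hlt (by omega))
    · exact heq
    · exact absurd h.symm (hLL j i hgt (by omega))
  have hCn : ((List.range m).map ν.C).Nodup := by
    refine (List.nodup_map_iff_inj_on List.nodup_range).2 ?_
    intro i hi j hj h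
    rw [List.mem_range] at hi hj
    rcases lt_trichotomy i j with hlt | heq | hgt
    · exact absurd h (hCC i j hlt hj)
    · exact heq
    · exact absurd h.symm (hCC j i hgt hi)
  have hLCn : ((List.range (m + 1)).map ν.L ++ (List.range m).map ν.C).Nodup := by
    refine List.nodup_append.2 ⟨hLn, hCn, ?_⟩
    intro c h1 d h2 hcd
    rw [List.mem_map] at h1 h2
    obtain ⟨i, hi, rfl⟩ := h1
    obtain ⟨j, hj, rfl⟩ := h2
    rw [List.mem_range] at hi hj
    exact hLC i (by omega) j hj hcd
  have hR : ((List.range (m + 1)).map ν.S ++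
      ((List.range (m + 1)).map ν.L ++ (List.range m).map ν.C)).Nodup := by
    refine List.nodup_append.2 ⟨hS, hLCn, ?_⟩
    intro c h1 d h2 hcd
    rw [List.mem_map] at h1
    obtain ⟨i, hi, rfl⟩ := h1
    rw [List.mem_range] at hi
    rw [List.mem_append, List.mem_map, List.mem_map] at h2
    rcases h2 with ⟨j, hj, rfl⟩ | ⟨j, hj, rfl⟩
    · rw [List.mem_range] at hj
      exact hSL i (by omega) j (by omega) hcd
    · rw [List.mem_range] at hj
      exact hSC i (by omega) j hj hcd
  -- membership in the rest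
  have hmem : ∀ c, c ∈ (List.range (m + 1)).map ν.S ++
      ((List.range (m + 1)).map ν.L ++ (List.range m).map ν.C) →
      (∃ i ≤ m, ν.S i = c) ∨ (∃ i ≤ m, ν.L i = c) ∨ (∃ i < m, ν.C i = c) := by
    intro c h
    rw [List.mem_append, List.mem_append, List.mem_map, List.mem_map, List.mem_map] at h
    rcases h with ⟨j, hj, h⟩ | ⟨j, hj, h⟩ | ⟨j, hj, h⟩
    · rw [List.mem_range] at hj
      exact Or.inl ⟨j, by omega, h⟩
    · rw [List.mem_range] at hj
      exact Or.inr (Or.inl ⟨j, by omega, h⟩)
    · rw [List.mem_range] at hj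
      exact Or.inr (Or.inr ⟨j, hj, h⟩)
  unfold nl
  rw [List.nodup_cons, List.nodup_cons, List.nodup_cons, List.nodup_cons]
  refine ⟨?_, ?_, ?_, ?_, hR⟩
  · intro h
    rw [List.mem_cons, List.mem_cons, List.mem_cons] at h
    rcases h with h | h | h | h
    · exact hxy h
    · exact hxa h
    · exact hxb h
    · rcases hmem _ h with ⟨i, hi, h⟩ | ⟨i, hi, h⟩ | ⟨i, hi, h⟩
      · exact hxS i hi h
      · exact hxL i hi h
      · exact hxC i hi h
  · intro h
    rw [List.mem_cons, List.mem_cons] at h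
    rcases h with h | h | h
    · exact hya h
    · exact hyb h
    · rcases hmem _ h with ⟨i, hi, h⟩ | ⟨i, hi, h⟩ | ⟨i, hi, h⟩
      · exact hyS i hi h
      · exact hyL i hi h
      · exact hyC i hi h
  · intro h
    rw [List.mem_cons] at h
    rcases h with h | h
    · exact hab h
    · rcases hmem _ h with ⟨i, hi, h⟩ | ⟨i, hi, h⟩ | ⟨i, hi, h⟩
      · exact haS i hi h
      · exact haL i hi h
      · exact haC i hi h
  · intro h
    rcases hmem _ h with ⟨i, hi, h⟩ | ⟨i, hi, h⟩ | ⟨i, hi, h⟩
    · exact hbS i hi h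
    · exact hbL i hi h
    · exact hbC i hi h

end Pool.Agent.MWGN.H15
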